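import Pool.Agent.GT.StmtsB

/-!
# GT row B_DMA: the abstract dense model theorem
-/

namespace Pool.Agent.GT.H13

open Finset Pool.Agent.GT

/-- B_DMA -/
theorem b_dma (Sep : SepStmt) (Pol : PolStmt) (Hul : HulStmt) : DmaStmt := by
  intro η hη
  obtain ⟨n, c, hc⟩ := Pol (η / 8) (by positivity)
  have hCs : 0 ≤ ∑ m ∈ range n, |c m| := Finset.sum_nonneg fun m _ => abs_nonneg _
  obtain ⟨Cs, hCsd⟩ : ∃ Cs : ℝ, Cs = ∑ m ∈ range n, |c m| := ⟨_, rfl⟩
  rw [← hCsd] at hCs
  refine ⟨min 1 (η / (4 * (Cs + 1))), lt_min one_pos (by positivity), ?_⟩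
  intro Z _ _ G ν f hG1 h1 hneg hprod hν hf0 hfν
  obtain ⟨ε, hεd⟩ : ∃ ε : ℝ, ε = min 1 (η / (4 * (Cs + 1))) := ⟨_, rfl⟩
  rw [← hεd] at hν
  have hε0 : 0 < ε := by
    rw [hεd]
    exact lt_min one_pos (by positivity)
  have hε1 : ε ≤ 1 := by
    rw [hεd]
    exact min_le_left _ _
  have hε2 : Cs * ε ≤ η / 4 := by
    have h2 : ε ≤ η / (4 * (Cs + 1)) := by
      rw [hεd]
      exact min_le_right _ _
    calc Cs * ε ≤ Cs * (η / (4 * (Cs + 1))) := mul_le_mul_of_nonneg_left h2 hCs
      _ = η / 4 * (Cs / (Cs + 1)) := by field_simp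
      _ ≤ η / 4 * 1 := by
          refine mul_le_mul_of_nonneg_left ?_ (by positivity)
          rw [div_le_one (by positivity)]
          linarith
      _ = η / 4 := mul_one _
  by_contra hcon
  push Not at hcon
  have hcon2 : ∀ g : Z → ℝ, (∀ s, 0 ≤ g s ∧ g s ≤ 1) →
      ∃ φ ∈ G, η < av (fun s => (f s - g s) * φ s) := by
    intro g hg
    obtain ⟨φ, hφ, h2⟩ := hcon g hg
    rcases lt_abs.1 h2 with h3 | h3
    · exact ⟨φ, hφ, h3⟩
    · refine ⟨fun s => - φ s, hneg φ hφ, ?_⟩
      rw [← av_neg] at h3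
      have e : (fun s => (f s - g s) * -φ s) = fun s => -((f s - g s) * φ s) := by
        funext s
        ring
      rw [e]
      exact h3
  obtain ⟨φ, hφ, hφg⟩ := Sep Z G f η hcon2
  -- bounds in the convex hull
  have hb : ∀ ψ ∈ convexHull ℝ G, ∀ s, |ψ s| ≤ 1 := by
    have hconv : Convex ℝ {ψ : Z → ℝ | ∀ s, |ψ s| ≤ 1} := by
      intro x hx y hy a b ha hb hab s
      calc |(a • x + b • y) s| = |a * x s + b * y s| := rfl
        _ ≤ |a * x s| + |b * y s| := abs_add_le _ _
        _ = a * |x s| + b * |y s| := by rw [abs_mul, abs_mul, abs_of_nonneg ha, abs_of_nonneg hb]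
        _ ≤ a * 1 + b * 1 := add_le_add (mul_le_mul_of_nonneg_left (hx s) ha)
            (mul_le_mul_of_nonneg_left (hy s) hb)
        _ = 1 := by rw [mul_one, mul_one, hab]
    intro ψ hψ
    exact convexHull_min (fun φ hφ => hG1 φ hφ) hconv hψ
  have hL : ∀ ψ ∈ convexHull ℝ G, |av (fun s => (ν s - 1) * ψ s)| ≤ ε := by
    have hconv : Convex ℝ {ψ : Z → ℝ | |av (fun s => (ν s - 1) * ψ s)| ≤ ε} := by
      intro x hx y hy a b ha hb hab
      have hx' : |av (fun s => (ν s - 1) * x s)| ≤ ε := hx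
      have hy' : |av (fun s => (ν s - 1) * y s)| ≤ ε := hy
      have e : av (fun s => (ν s - 1) * (a • x + b • y) s) =
          a * av (fun s => (ν s - 1) * x s) + b * av (fun s => (ν s - 1) * y s) := by
        rw [← av_mul_left, ← av_mul_left, ← av_add]
        congr 1
        funext s
        change (ν s - 1) * (a * x s + b * y s) = _
        ring
      change |av (fun s => (ν s - 1) * (a • x + b • y) s)| ≤ ε
      rw [e]
      calc |a * av (fun s => (ν s - 1) * x s) + b * av (fun s => (ν s - 1) * y s)|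
          ≤ |a * av (fun s => (ν s - 1) * x s)| + |b * av (fun s => (ν s - 1) * y s)| :=
            abs_add_le _ _
        _ = a * |av (fun s => (ν s - 1) * x s)| + b * |av (fun s => (ν s - 1) * y s)| := by
            rw [abs_mul, abs_mul, abs_of_nonneg ha, abs_of_nonneg hb]
        _ ≤ a * ε + b * ε := add_le_add (mul_le_mul_of_nonneg_left hx' ha)
            (mul_le_mul_of_nonneg_left hy' hb)
        _ = ε := by rw [← add_mul, hab, one_mul]
    intro ψ hψ
    exact convexHull_min (fun φ hφ => hν φ hφ) hconv hψ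
  -- the test function
  have h3 := hφg (fun s => if 0 < φ s then 1 else 0) (fun s => by split_ifs <;> norm_num)
  have h4 : av (fun s => (f s - (if 0 < φ s then 1 else 0)) * φ s) ≤
      av (fun s => (ν s - 1) * max (φ s) 0) := by
    refine av_mono fun s => ?_
    split_ifs with hs
    · rw [max_eq_left hs.le]
      have := hfν s
      nlinarith
    · push Not at hs
      rw [max_eq_right hs, mul_zero, sub_zero]
      exact mul_nonpos_of_nonneg_of_nonpos (hf0 s) hs
  have h5 : av (fun s => (ν s - 1) * max (φ s) 0) =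
      av (fun s => (ν s - 1) * (max (φ s) 0 - ∑ m ∈ range n, c m * φ s ^ m)) +
      ∑ m ∈ range n, c m * av (fun s => (ν s - 1) * φ s ^ m) := by
    have e : ∀ m, c m * av (fun s => (ν s - 1) * φ s ^ m) =
        av (fun s => c m * ((ν s - 1) * φ s ^ m)) := fun m => (av_mul_left _ _).symm
    simp only [e]
    rw [← av_sum, ← av_add]
    congr 1
    funext s
    have e2 : ∑ m ∈ range n, c m * ((ν s - 1) * φ s ^ m) =
        (ν s - 1) * ∑ m ∈ range n, c m * φ s ^ m := by
      rw [Finset.mul_sum]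
      refine Finset.sum_congr rfl fun m _ => ?_
      ring
    rw [e2]
    ring
  have hν0 : ∀ s, 0 ≤ ν s := fun s => (hf0 s).trans (hfν s)
  have h6 : av (fun s => (ν s - 1) * (max (φ s) 0 - ∑ m ∈ range n, c m * φ s ^ m)) ≤
      η / 8 * 3 := by
    have e1 : av (fun s => (ν s - 1) * (max (φ s) 0 - ∑ m ∈ range n, c m * φ s ^ m)) ≤
        av (fun s => η / 8 * ((ν s - 1) * 1 + 2)) := by
      refine av_mono fun s => ?_
      have a1 : |(ν s - 1) * (max (φ s) 0 - ∑ m ∈ range n, c m * φ s ^ m)| ≤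
          (ν s + 1) * (η / 8) := by
        rw [abs_mul]
        refine mul_le_mul ?_ (hc _ (hb φ hφ s)) (abs_nonneg _) (by have := hν0 s; linarith)
        rw [abs_le]
        have := hν0 s
        constructor <;> linarith
      have a2 := le_abs_self ((ν s - 1) * (max (φ s) 0 - ∑ m ∈ range n, c m * φ s ^ m))
      linarith
    have e2 : av (fun s => η / 8 * ((ν s - 1) * 1 + 2)) =
        η / 8 * (av (fun s => (ν s - 1) * 1) + 2) := by
      rw [av_mul_left, av_add, av_const]
    have e3 := (abs_le.1 (hν _ h1)).2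
    rw [e2] at e1
    have e4 : η / 8 * (av (fun s => (ν s - 1) * 1) + 2) ≤ η / 8 * 3 := by
      refine mul_le_mul_of_nonneg_left ?_ (by positivity)
      linarith
    linarith
  have h7 : ∑ m ∈ range n, c m * av (fun s => (ν s - 1) * φ s ^ m) ≤ Cs * ε := by
    rw [hCsd, Finset.sum_mul]
    refine Finset.sum_le_sum fun m _ => ?_
    calc c m * av (fun s => (ν s - 1) * φ s ^ m) ≤ |c m * av (fun s => (ν s - 1) * φ s ^ m)| :=
          le_abs_self _
      _ = |c m| * |av (fun s => (ν s - 1) * φ s ^ m)| := abs_mul _ _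
      _ ≤ |c m| * ε := mul_le_mul_of_nonneg_left (hL _ (Hul Z G h1 hprod φ hφ m)) (abs_nonneg _)
  rw [h5] at h4
  linarith

end Pool.Agent.GT.H13
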