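import Pool.Agent.GT.StmtsB

/-!
# GT row B_NUP: the marginal of the majorants is close to `1` in `L²`
-/

namespace Pool.Agent.GT.H13

open Finset Pool.Agent.GT

/-- B_NUP -/
theorem b_nup : NupStmt := by
  classical
  intro K X _ _ ε μ P a hμ hP
  -- the relevant indices
  set S₀ : Finset (Fin K) := (univ.erase a).filter (fun j => P j = μ j) with hS₀
  have hQ : ∀ x, ∏ j ∈ S₀, μ j x = ∏ j ∈ univ.erase a, P j x := by
    intro x
    rw [← Finset.prod_subset (filter_subset (fun j => P j = μ j) (univ.erase a))]
    · refine Finset.prod_congr rfl fun j hj => ?_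
      rw [(mem_filter.1 hj).2]
    · intro j hj hj2
      rcases hP j with h | h
      · exact absurd (mem_filter.2 ⟨hj, h⟩) hj2
      · rw [h]
  set ω0 : Fin K → Bool := fun _ => false with hω0
  set ω1 : Fin K → Bool := Function.update (fun _ => false) a true with hω1
  have hω : ω0 ≠ ω1 := by
    intro h
    have := congrFun h a
    simp [hω0, hω1] at this
  have hmix : ∀ x y : Fin K → X, mix ω1 x y = Function.update x a (y a) := by
    intro x y
    funext i
    unfold mix
    by_cases hi : i = a
    · subst hi
      simp [hω1]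
    · simp [hω1, Function.update_of_ne hi]
  have hS₀a : ∀ j ∈ S₀, j ≠ a := fun j hj => (mem_erase.1 (mem_filter.1 hj).1).1
  -- first average
  have h1 := hμ (S₀ ×ˢ {ω0}) (by
    rintro ⟨j, ω⟩ hp
    rw [mem_product, mem_singleton] at hp
    have h2 : ω = ω0 := hp.2
    subst h2
    rfl)
  have e1 : av (fun z : (Fin K → X) × (Fin K → X) =>
      ∏ p ∈ S₀ ×ˢ {ω0}, μ p.1 (mix p.2 z.1 z.2)) =
      av (fun x => av (fun s => ∏ j ∈ univ.erase a, P j (Function.update x a s))) := by
    rw [← av_update a (fun x => ∏ j ∈ univ.erase a, P j x), av_prod]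
    congr 1
    funext x
    have : ∀ y : Fin K → X, ∏ p ∈ S₀ ×ˢ {ω0}, μ p.1 (mix p.2 x y) =
        ∏ j ∈ univ.erase a, P j x := by
      intro y
      rw [Finset.prod_product]
      simp only [Finset.prod_singleton]
      rw [← hQ x]
      refine Finset.prod_congr rfl fun j _ => ?_
      rw [hω0, mix_false]
    simp only [this]
    exact av_const _
  rw [e1] at h1
  -- second average
  have h2 := hμ (S₀ ×ˢ {ω0, ω1}) (by
    rintro ⟨j, ω⟩ hp
    rw [mem_product, mem_insert, mem_singleton] at hp
    have hj : j ≠ a := hS₀a j hp.1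
    rcases hp.2 with h | h
    · have h3 : ω = ω0 := h
      subst h3
      rfl
    · have h3 : ω = ω1 := h
      change ω j = false
      rw [h3, hω1, Function.update_of_ne hj])
  have e2 : av (fun z : (Fin K → X) × (Fin K → X) =>
      ∏ p ∈ S₀ ×ˢ {ω0, ω1}, μ p.1 (mix p.2 z.1 z.2)) =
      av (fun x => (av (fun s => ∏ j ∈ univ.erase a, P j (Function.update x a s))) ^ 2) := by
    have a1 : ∀ x y : Fin K → X, ∏ p ∈ S₀ ×ˢ {ω0, ω1}, μ p.1 (mix p.2 x y) =
        (∏ j ∈ univ.erase a, P j x) * ∏ j ∈ univ.erase a, P j (Function.update x a (y a)) := by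
      intro x y
      rw [Finset.prod_product]
      have : ∀ j ∈ S₀, ∏ ω ∈ ({ω0, ω1} : Finset (Fin K → Bool)), μ j (mix ω x y) =
          μ j x * μ j (Function.update x a (y a)) := by
        intro j _
        rw [Finset.prod_pair hω, hω0, mix_false, hmix]
      rw [Finset.prod_congr rfl this, Finset.prod_mul_distrib, hQ, hQ]
    rw [av_prod]
    simp only [a1]
    have a2 : ∀ x : Fin K → X, av (fun y : Fin K → X => (∏ j ∈ univ.erase a, P j x) *
        ∏ j ∈ univ.erase a, P j (Function.update x a (y a))) =
        (∏ j ∈ univ.erase a, P j x) *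
          av (fun s => ∏ j ∈ univ.erase a, P j (Function.update x a s)) := by
      intro x
      rw [av_mul_left]
      congr 1
      rw [av_update a (fun y : Fin K → X => ∏ j ∈ univ.erase a, P j (Function.update x a (y a)))]
      simp only [Function.update_self]
      exact av_const _
    simp only [a2]
    rw [av_update a]
    congr 1
    funext x
    simp only [Function.update_idem]
    rw [av_mul_right, sq]
  rw [e2] at h2
  have e3 : av (fun x => (av (fun s => ∏ j ∈ univ.erase a, P j (Function.update x a s)) - 1) ^ 2) =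
      av (fun x => (av (fun s => ∏ j ∈ univ.erase a, P j (Function.update x a s))) ^ 2) -
      2 * av (fun x => av (fun s => ∏ j ∈ univ.erase a, P j (Function.update x a s))) + 1 := by
    rw [← av_mul_left, ← av_sub, ← av_const (α := Fin K → X) (1 : ℝ), ← av_add]
    congr 1
    funext x
    rw [av_const]
    ring
  rw [e3]
  rw [abs_le] at h1 h2
  linarith [h1.1, h2.2]

end Pool.Agent.GT.H13
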