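import Pool.Agent.GT.StmtsE

/-!
# Squad GT, row E_TRT (helper13): translation by a point of order 2
-/

set_option autoImplicit false

noncomputable section

namespace Pool.Agent.GT.OF.H13

/-- the square of `2 y + a₁ x + a₃` -/
theorem eta_sq {F : Type} [Field F] (W : WeierstrassCurve F) (e : Fin 3 → F) (hR : Rt3 W e)
    {x y : F} (h : W.toAffine.Nonsingular x y) :
    (2 * y + W.a₁ * x + W.a₃) ^ 2 = 4 * ((x - e 0) * (x - e 1) * (x - e 2)) := by
  have h1 := (WeierstrassCurve.Affine.equation_iff (W := W.toAffine) x y).1 h.1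
  obtain ⟨h2, h3, h4⟩ := hR.rts
  rw [WeierstrassCurve.b₂] at h2
  rw [WeierstrassCurve.b₄] at h3
  rw [WeierstrassCurve.b₆] at h4
  linear_combination 4 * h1 + x ^ 2 * h2 + 2 * x * h3 + h4

open Classical in
theorem e_trt : TrtStmt := by
  intro F _ W e hR T Q j x hT hQ hx
  obtain ⟨yT, hT1, rfl⟩ := hT
  obtain ⟨y, hQ1, rfl⟩ := hQ
  have h2 : (2 : F) ≠ 0 := hR.two
  have hs : e 0 + e 1 + e 2 = e j + e (j + 1) + e (j + 2) := by
    fin_cases j
    · rfl
    · change e 0 + e 1 + e 2 = e 1 + e 2 + e 0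
      ring
    · change e 0 + e 1 + e 2 = e 2 + e 0 + e 1
      ring
  have hp : ∀ z : F, (z - e 0) * (z - e 1) * (z - e 2) =
      (z - e j) * (z - e (j + 1)) * (z - e (j + 2)) := by
    intro z
    fin_cases j
    · rfl
    · change (z - e 0) * (z - e 1) * (z - e 2) = (z - e 1) * (z - e 2) * (z - e 0)
      ring
    · change (z - e 0) * (z - e 1) * (z - e 2) = (z - e 2) * (z - e 0) * (z - e 1)
      ring
  have hηT := eta_sq W e hR hT1
  have hη := eta_sq W e hR hQ1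
  rw [hp, sub_self, zero_mul, zero_mul, mul_zero] at hηT
  have hηT' : 2 * yT + W.a₁ * e j + W.a₃ = 0 := pow_eq_zero_iff two_ne_zero |>.1 hηT
  rw [hp] at hη
  have hA : x - e j ≠ 0 := sub_ne_zero.2 hx
  have hb := hR.rts.1
  rw [hs, WeierstrassCurve.b₂] at hb
  refine ⟨_, ⟨_, WeierstrassCurve.Affine.nonsingular_add hQ1 hT1 fun h => hx h.1,
    WeierstrassCurve.Affine.Point.add_of_X_ne hx⟩, ?_⟩
  rw [WeierstrassCurve.Affine.slope_of_X_ne hx]
  unfold WeierstrassCurve.Affine.addX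
  obtain ⟨L, hL⟩ : ∃ L : F, L = (y - yT) / (x - e j) := ⟨_, rfl⟩
  rw [← hL]
  have hL' : L * (x - e j) = y - yT := by rw [hL, div_mul_cancel₀ _ hA]
  have h4 : (4 : F) * (x - e j) ≠ 0 := by
    refine mul_ne_zero ?_ hA
    have : (4 : F) = 2 * 2 := by norm_num
    rw [this]
    exact mul_ne_zero h2 h2
  refine mul_left_cancel₀ h4 ?_
  have h5 : 2 * (L * (x - e j)) = (2 * y + W.a₁ * x + W.a₃) - W.a₁ * (x - e j) := by
    rw [hL']
    linear_combination (-1 : F) * hηT'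
  obtain ⟨u, hu⟩ : ∃ u : F, u = 2 * y + W.a₁ * x + W.a₃ := ⟨_, rfl⟩
  rw [← hu] at h5 hη
  have h6 : 4 * (L * (x - e j)) ^ 2 = (u - W.a₁ * (x - e j)) ^ 2 := by
    rw [← h5]
    ring
  have h7 : W.a₁ ^ 2 + 4 * W.a₂ = -4 * (e j + e (j + 1) + e (j + 2)) := hb
  linear_combination h6 + 2 * W.a₁ * (x - e j) * h5 + hη - (x - e j) ^ 2 * h7

end Pool.Agent.GT.OF.H13
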