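import Pool.Agent.GT.StmtsC

/-!
# GT row C_CRM: the Chinese remainder theorem for averages
-/

open Finset

namespace Pool.Agent.GT.H13

open Pool.Agent.GT

/-- two coprime moduli -/
theorem crm_two {ι : Type} [Fintype ι] [DecidableEq ι] (n q D : ℕ) (hn : n = q * D) (hq : 0 < q)
    (hD : 0 < D) (hcop : Nat.Coprime q D) (f g : (ι → ℤ) → ℝ)
    (hf : ∀ u v : ι → ℤ, (∀ i, (q : ℤ) ∣ u i - v i) → f u = f v)
    (hg : ∀ u v : ι → ℤ, (∀ i, (D : ℤ) ∣ u i - v i) → g u = g v) :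
    ∑ h : ι → Fin n, f (fun i => ((h i : ℕ) : ℤ)) * g (fun i => ((h i : ℕ) : ℤ)) =
      (∑ u : ι → Fin q, f (fun i => ((u i : ℕ) : ℤ))) *
        ∑ v : ι → Fin D, g (fun i => ((v i : ℕ) : ℤ)) := by
  subst hn
  let e : (ι → Fin (q * D)) → (ι → Fin q) × (ι → Fin D) := fun h =>
    (fun i => ⟨(h i : ℕ) % q, Nat.mod_lt _ hq⟩, fun i => ⟨(h i : ℕ) % D, Nat.mod_lt _ hD⟩)
  have he : Function.Bijective e := by
    rw [Fintype.bijective_iff_injective_and_card]
    constructor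
    · intro h h' hh
      funext i
      apply Fin.ext
      have h1 : (h i : ℕ) % q = (h' i : ℕ) % q :=
        congrArg (fun p : (ι → Fin q) × (ι → Fin D) => ((p.1 i : Fin q) : ℕ)) hh
      have h2 : (h i : ℕ) % D = (h' i : ℕ) % D :=
        congrArg (fun p : (ι → Fin q) × (ι → Fin D) => ((p.2 i : Fin D) : ℕ)) hh
      have h3 : (h i : ℕ) ≡ (h' i : ℕ) [MOD q * D] :=
        (Nat.modEq_and_modEq_iff_modEq_mul hcop).1 ⟨h1, h2⟩
      have h4 : (h i : ℕ) % (q * D) = (h' i : ℕ) % (q * D) := h3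
      rwa [Nat.mod_eq_of_lt (h i).isLt, Nat.mod_eq_of_lt (h' i).isLt] at h4
    · rw [Fintype.card_prod, Fintype.card_fun, Fintype.card_fun, Fintype.card_fun,
        Fintype.card_fin, Fintype.card_fin, Fintype.card_fin, mul_pow]
  rw [Finset.sum_mul_sum, ← Fintype.sum_prod_type'
    (f := fun (u : ι → Fin q) (v : ι → Fin D) => f (fun i => ((u i : ℕ) : ℤ)) *
      g (fun i => ((v i : ℕ) : ℤ))), ← he.sum_comp]
  refine Finset.sum_congr rfl fun h _ => ?_
  have a1 : f (fun i => ((h i : ℕ) : ℤ)) = f (fun i => (((e h).1 i : ℕ) : ℤ)) := by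
    apply hf
    intro i
    change (q : ℤ) ∣ ((h i : ℕ) : ℤ) - (((h i : ℕ) % q : ℕ) : ℤ)
    rw [Int.natCast_mod]
    exact Int.dvd_self_sub_emod
  have a2 : g (fun i => ((h i : ℕ) : ℤ)) = g (fun i => (((e h).2 i : ℕ) : ℤ)) := by
    apply hg
    intro i
    change (D : ℤ) ∣ ((h i : ℕ) : ℤ) - (((h i : ℕ) % D : ℕ) : ℤ)
    rw [Int.natCast_mod]
    exact Int.dvd_self_sub_emod
  rw [a1, a2]

/-- C_CRM -/
theorem c_crm : CrmStmt := by
  intro ι _ _ Q φ
  refine Finset.induction_on (motive := fun Q : Finset ℕ => (∀ p ∈ Q, p.Prime) →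
    (∀ p ∈ Q, ∀ u v : ι → ℤ, (∀ i, (p : ℤ) ∣ u i - v i) → φ p u = φ p v) →
    (∑ h : ι → Fin (nn Q), ∏ p ∈ Q, φ p (fun i => ((h i : ℕ) : ℤ))) /
      (nn Q : ℝ) ^ Fintype.card ι =
    ∏ p ∈ Q, (∑ v : ι → Fin p, φ p (fun i => ((v i : ℕ) : ℤ))) /
      (p : ℝ) ^ Fintype.card ι) Q ?_ ?_
  · intro _ _
    have h1 : nn ∅ = 1 := rfl
    have h2 : Fintype.card (ι → Fin (nn ∅)) = 1 := by
      rw [Fintype.card_fun, Fintype.card_fin, h1, one_pow]
    simp only [Finset.prod_empty, Finset.sum_const, Finset.card_univ, h2]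
    rw [h1]
    simp
  · intro q Q hq ih hP hφ
    have hP' : ∀ p ∈ Q, p.Prime := fun p hp => hP p (mem_insert_of_mem hp)
    have hφ' : ∀ p ∈ Q, ∀ u v : ι → ℤ, (∀ i, (p : ℤ) ∣ u i - v i) → φ p u = φ p v :=
      fun p hp => hφ p (mem_insert_of_mem hp)
    have hih := ih hP' hφ'
    have hqp : q.Prime := hP q (mem_insert_self q Q)
    have hnn : nn (insert q Q) = q * nn Q := Finset.prod_insert hq
    have hcop : Nat.Coprime q (nn Q) := by
      unfold nn
      rw [Nat.coprime_prod_right_iff]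
      intro p hp
      rw [Nat.coprime_primes hqp (hP' p hp)]
      rintro rfl
      exact hq hp
    have hDpos : 0 < nn Q := Finset.prod_pos fun p hp => (hP' p hp).pos
    have key := crm_two (nn (insert q Q)) q (nn Q) hnn hqp.pos hDpos hcop (φ q)
      (fun u => ∏ p ∈ Q, φ p u) (hφ q (mem_insert_self q Q)) (by
        intro u v huv
        refine Finset.prod_congr rfl fun p hp => hφ' p hp u v fun i => ?_
        exact (Int.natCast_dvd_natCast.2 (Finset.dvd_prod_of_mem (fun p => p) hp)).trans (huv i))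
    have e1 : ∑ h : ι → Fin (nn (insert q Q)), ∏ p ∈ insert q Q, φ p (fun i => ((h i : ℕ) : ℤ)) =
        ∑ h : ι → Fin (nn (insert q Q)), φ q (fun i => ((h i : ℕ) : ℤ)) *
          ∏ p ∈ Q, φ p (fun i => ((h i : ℕ) : ℤ)) :=
      Finset.sum_congr rfl fun h _ => Finset.prod_insert hq
    rw [e1, key, Finset.prod_insert hq, ← hih]
    have e2 : (nn (insert q Q) : ℝ) = (q : ℝ) * (nn Q : ℝ) := by
      rw [hnn]
      push_cast
      ring
    rw [e2, mul_pow, mul_div_mul_comm]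

end Pool.Agent.GT.H13
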